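import Mathlib

/-!
# Project LU, uniform version: constants for the jobs KEYU and GKEYU (helper190 for helper77)
-/

set_option autoImplicit false

namespace Pool.Agent.Q190.LU

/-- the constants of the localisation -/
structure Cst (Λ l C1 Ct Ca Ci Cr : ℝ) (p1 pt pa pi pr : ℕ) (S W : ℝ) : Prop where
  S1 : 1 ≤ S
  S2 : C1 * Λ ^ p1 ≤ S
  S3 : Λ < S
  S4 : Ct * l ^ pt ≤ S
  S5 : 8 * (Cr * l ^ pr) ≤ S
  W1 : 1 ≤ W
  W2 : Λ ≤ 2 * W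
  W3 : W⁻¹ ≤ (S⁻¹ * (Ct * l ^ pt)⁻¹) ^ 2
  M1 : C1 * Λ ^ p1 + Ca * (2 * W) ^ pa + Ci * l ^ pi * W ^ 2 ≤
    (C1 + Ca * (2 * ((C1 + 2 + Ct + 8 * Cr) * Ct) ^ 2) ^ pa +
      Ci * ((C1 + 2 + Ct + 8 * Cr) * Ct) ^ 4) *
      Λ ^ (p1 + 2 * (p1 + 1 + pt + pr + pt) * pa + pi + 4 * (p1 + 1 + pt + pr + pt))

lemma pow_le (Λ : ℝ) (h : 1 ≤ Λ) {a b : ℕ} (hab : a ≤ b) : Λ ^ a ≤ Λ ^ b :=
  pow_le_pow_right₀ h hab

lemma cst (Λ l C1 Ct Ca Ci Cr : ℝ) (p1 pt pa pi pr : ℕ) (hl : 1 ≤ l) (hΛ : l ≤ Λ)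
    (h1 : 1 ≤ C1) (ht : 1 ≤ Ct) (ha : 1 ≤ Ca) (hi : 1 ≤ Ci) (hr : 1 ≤ Cr) :
    Cst Λ l C1 Ct Ca Ci Cr p1 pt pa pi pr
      ((C1 + 2 + Ct + 8 * Cr) * Λ ^ (p1 + 1 + pt + pr))
      (((C1 + 2 + Ct + 8 * Cr) * Ct) ^ 2 * Λ ^ (2 * (p1 + 1 + pt + pr + pt))) := by
  have hΛ1 : 1 ≤ Λ := hl.trans hΛ
  have hΛ0 : 0 < Λ := by linarith
  have hl0 : 0 < l := by linarith
  obtain ⟨C2, hC2⟩ : ∃ C2, C2 = C1 + 2 + Ct + 8 * Cr := ⟨_, rfl⟩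
  obtain ⟨p2, hp2⟩ : ∃ p2, p2 = p1 + 1 + pt + pr := ⟨_, rfl⟩
  rw [← hC2, ← hp2]
  have hC21 : 1 ≤ C2 := by rw [hC2]; linarith
  have hP : ∀ k : ℕ, 1 ≤ Λ ^ k := fun k => one_le_pow₀ hΛ1
  have hlk : ∀ k : ℕ, l ^ k ≤ Λ ^ k := fun k => pow_le_pow_left₀ hl0.le hΛ k
  have hS1 : 1 ≤ C2 * Λ ^ p2 := by nlinarith [hP p2]
  have hle : ∀ (c : ℝ) (k : ℕ), 0 ≤ c → c ≤ C2 → k ≤ p2 → c * Λ ^ k ≤ C2 * Λ ^ p2 := by
    intro c k hc hcC hk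
    exact mul_le_mul hcC (pow_le Λ hΛ1 hk) (by positivity) (by linarith)
  have hS4 : Ct * l ^ pt ≤ C2 * Λ ^ p2 :=
    (mul_le_mul_of_nonneg_left (hlk pt) (by linarith)).trans
      (hle Ct pt (by linarith) (by linarith) (by omega))
  have hCt1 : 1 ≤ Ct * Λ ^ pt := by nlinarith [hP pt]
  obtain ⟨W, hW⟩ : ∃ W, W = (C2 * Ct) ^ 2 * Λ ^ (2 * (p2 + pt)) := ⟨_, rfl⟩
  have hWS : W = ((C2 * Λ ^ p2) * (Ct * Λ ^ pt)) ^ 2 := by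
    rw [hW]
    ring
  have hW1 : 1 ≤ W := by
    rw [hWS]
    exact one_le_pow₀ (by nlinarith)
  rw [← hW]
  refine ⟨hS1, hle C1 p1 (by linarith) (by linarith) (by omega), ?_, hS4, ?_, hW1, ?_, ?_, ?_⟩
  · have h2 := hle 2 1 (by norm_num) (by linarith) (by omega)
    rw [pow_one] at h2
    linarith
  · have h2 := hle (8 * Cr) pr (by linarith) (by linarith) (by omega)
    have h3 : Cr * l ^ pr ≤ Cr * Λ ^ pr := mul_le_mul_of_nonneg_left (hlk pr) (by linarith)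
    linarith
  · have h2 := hle 1 1 (by norm_num) (by linarith) (by omega)
    rw [pow_one, one_mul] at h2
    have h3 : C2 * Λ ^ p2 ≤ W := by
      rw [hWS]
      have h4 : C2 * Λ ^ p2 ≤ (C2 * Λ ^ p2) * (Ct * Λ ^ pt) := by nlinarith
      nlinarith
    linarith
  · rw [← mul_inv, inv_pow, hWS]
    apply inv_anti₀ (by positivity)
    apply pow_le_pow_left₀ (by positivity)
    apply mul_le_mul_of_nonneg_left _ (by positivity)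
    exact mul_le_mul_of_nonneg_left (hlk pt) (by linarith)
  · have e1 : C1 * Λ ^ p1 ≤ C1 * Λ ^ (p1 + 2 * (p2 + pt) * pa + pi + 4 * (p2 + pt)) :=
      mul_le_mul_of_nonneg_left (pow_le Λ hΛ1 (by omega)) (by linarith)
    have e2 : Ca * (2 * W) ^ pa ≤ Ca * (2 * (C2 * Ct) ^ 2) ^ pa *
        Λ ^ (p1 + 2 * (p2 + pt) * pa + pi + 4 * (p2 + pt)) := by
      have : (2 * W) ^ pa = (2 * (C2 * Ct) ^ 2) ^ pa * Λ ^ (2 * (p2 + pt) * pa) := by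
        rw [hW, ← mul_assoc, mul_pow _ (Λ ^ _), ← pow_mul]
      rw [this, ← mul_assoc]
      apply mul_le_mul_of_nonneg_left (pow_le Λ hΛ1 (by omega)) (by positivity)
    have e3 : Ci * l ^ pi * W ^ 2 ≤ Ci * (C2 * Ct) ^ 4 *
        Λ ^ (p1 + 2 * (p2 + pt) * pa + pi + 4 * (p2 + pt)) := by
      have : Ci * Λ ^ pi * W ^ 2 = Ci * (C2 * Ct) ^ 4 * Λ ^ (pi + 4 * (p2 + pt)) := by
        rw [hW]
        ring
      calc Ci * l ^ pi * W ^ 2 ≤ Ci * Λ ^ pi * W ^ 2 :=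
            mul_le_mul_of_nonneg_right (mul_le_mul_of_nonneg_left (hlk pi) (by linarith))
              (by positivity)
        _ ≤ _ := by
            rw [this]
            apply mul_le_mul_of_nonneg_left (pow_le Λ hΛ1 (by omega)) (by positivity)
    rw [← hC2, ← hp2]
    refine (add_le_add (add_le_add e1 e2) e3).trans (le_of_eq ?_)
    ring

end Pool.Agent.Q190.LU
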