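import Mathlib
import Pool.Agent.Q77.LU.StmU
import Pool.Agent.Q176.LU.KEY
import Pool.Agent.Q190.LU.Const

/-!
# Project LU, uniform version, job KEYU (helper190 for helper77; after Q176/LU/KEY of helper176)
-/

set_option autoImplicit false

namespace Pool.Agent.Q190.LU

open Pool.Agent.Q77.LU
open MeasureTheory Matrix Set Filter Topology
open scoped ContDiff Matrix.Norms.Frobenius

noncomputable section

variable {N n D l : ℕ} {G : Subgroup (UU N)}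

lemma thn_small {δ t : ℝ} (hδ : 0 < δ) (h : t ≤ δ / 2) : thn δ t = 0 :=
  Pool.Agent.Q176.LU.thn_small hδ h

lemma thn_large {δ t : ℝ} (hδ : 0 < δ) (h : δ ≤ t) : thn δ t = Real.pi / 2 :=
  Pool.Agent.Q176.LU.thn_large hδ h

theorem t_KEYU (h1 : S_LLBU) (h2 : S_TSM) (h3 : S_TINV) (h4 : S_PULL) (h5 : S_IMSU)
    (h6 : S_AWAYU) (h7 : S_TAUOU) (h8 : S_HC) (h9 : S_SYMM) : S_KEYU := by
  intro N n D G hG hconn B _ _ μ _ _ hnc hD hn
  obtain ⟨p1, h1⟩ := h1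
  obtain ⟨pt, Ct, hCt, h7⟩ := h7 N n D G hG hconn B hnc
  obtain ⟨pa, Ca, hCa, h6⟩ := h6 N n D G hG hD hn B μ
  obtain ⟨pi, Ci, hCi, h5⟩ := h5 N n D G hG B μ
  refine ⟨p1 + 2 * (p1 + 1 + pt + 0 + pt) * pa + pi + 4 * (p1 + 1 + pt + 0 + pt), ?_⟩
  intro ε κ0 hε hκ0
  obtain ⟨C1, hC1, h1⟩ := h1 ε κ0 hε hκ0
  refine ⟨C1 + Ca * (2 * ((C1 + 2 + Ct + 8 * 1) * Ct) ^ 2) ^ pa +
      Ci * ((C1 + 2 + Ct + 8 * 1) * Ct) ^ 4, ?_, ?_⟩
  · have e1 : 0 ≤ Ca * (2 * ((C1 + 2 + Ct + 8 * 1) * Ct) ^ 2) ^ pa := by positivity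
    have e2 : 0 ≤ Ci * ((C1 + 2 + Ct + 8 * 1) * Ct) ^ 4 := by positivity
    linarith
  intro l _ dc L Λ M hch hBd hκ hlΛ hM
  have hl1 : (1 : ℝ) ≤ l := by
    have : 1 ≤ l := Nat.one_le_iff_ne_zero.mpr (NeZero.ne l)
    exact_mod_cast this
  have hΛ1 : 1 ≤ Λ := hBd.one
  obtain ⟨S, hS⟩ : ∃ S, S = (C1 + 2 + Ct + 8 * 1) * Λ ^ (p1 + 1 + pt + 0) := ⟨_, rfl⟩
  obtain ⟨W, hW⟩ : ∃ W, W = ((C1 + 2 + Ct + 8 * 1) * Ct) ^ 2 *
    Λ ^ (2 * (p1 + 1 + pt + 0 + pt)) := ⟨_, rfl⟩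
  have hcst := cst Λ l C1 Ct Ca Ci 1 p1 pt pa pi 0 hl1 hlΛ hC1 hCt hCa hCi le_rfl
  rw [← hS, ← hW] at hcst
  obtain ⟨c1, c2, c3, c4, c5, c6, c7, c8, c9⟩ := hcst
  rw [← hM] at c9
  obtain ⟨M1, hM1⟩ : ∃ M1, M1 = C1 * Λ ^ p1 := ⟨_, rfl⟩
  obtain ⟨M', hM'⟩ : ∃ M', M' = Ca * (2 * W) ^ pa := ⟨_, rfl⟩
  obtain ⟨K2, hK2e⟩ : ∃ K2, K2 = Ci * (l : ℝ) ^ pi * W ^ 2 := ⟨_, rfl⟩
  rw [← hM1, ← hM', ← hK2e] at c9
  rw [← hM1] at c2
  have hM1p : 0 < M1 := by rw [hM1]; positivity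
  have hM'p : 0 < M' := by rw [hM']; positivity
  have hK2 : 0 ≤ K2 := by rw [hK2e]; positivity
  have hM1one : 1 ≤ M1 := by
    rw [hM1]
    nlinarith [one_le_pow₀ hΛ1 (n := p1)]
  have hMp : 0 < M := by linarith
  have hLr := L.rpos
  obtain ⟨ρ, hρe⟩ : ∃ ρ, ρ = S⁻¹ := ⟨_, rfl⟩
  have hρ : 0 < ρ := by rw [hρe]; positivity
  have hρ1 : ρ ≤ M1⁻¹ := by rw [hρe]; exact inv_anti₀ hM1p c2
  have hρr : ρ < L.r := by
    refine lt_of_lt_of_le ?_ hBd.r1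
    rw [hρe]
    exact inv_strictAnti₀ (by linarith) c3
  have hρt : ρ ≤ (Ct * (l : ℝ) ^ pt)⁻¹ := by
    rw [hρe]
    exact inv_anti₀ (by positivity) c4
  obtain ⟨δ, hδe⟩ : ∃ δ, δ = W⁻¹ := ⟨_, rfl⟩
  have hδ : 0 < δ := by rw [hδe]; positivity
  have hδ1 : δ ≤ 1 := by rw [hδe]; exact inv_le_one_of_one_le₀ c6
  have hδi : δ⁻¹ = W := by rw [hδe, inv_inv]
  have hτ : ∀ U : Link D l → G, tau B U < δ → Orb dc ρ U := by
    intro U hU
    refine h7 l dc ρ hρ hρt U (hU.trans_le ?_)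
    rw [hδe, hρe]
    exact c8
  obtain ⟨hc1, hc2, hc3, hc4, hc5, hc6, hc7, hc8, hc9⟩ := h8 N n D l G hG B
  obtain ⟨hcos, hsin, hims⟩ := h5 l δ hδ hδ1
  have haway := h6 l (δ / 2) (2 * W) M' (by linarith) (by
    rw [mul_inv, hδe]
    linarith) (by linarith) hM'
  refine ⟨fun U => Real.cos (thn δ (tau B U)), ?_⟩
  intro g hg hgM F hF hFg hFc
  have hg1 : g ≤ M1⁻¹ := hgM.trans (inv_anti₀ hM1p (by linarith))
  have hg2' : g ≤ M'⁻¹ := hgM.trans (inv_anti₀ hM'p (by linarith))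
  have hg3 : g ≤ 1 := hgM.trans (inv_le_one_of_one_le₀ (by linarith))
  have hsm := Pool.Agent.Q176.LU.sm_mul hcos hF
  obtain ⟨p1, p2, p3, p4, p5⟩ := h4 N n D l G hG B μ dc L hch ρ hρ hρr
    (fun U => Real.cos (thn δ (tau B U)) * F U) hsm
    (fun γ U => by
      show Real.cos (thn δ (tau B (gauge γ U))) * F (gauge γ U) = _
      rw [hc5, hFg])
    (fun z hz U => by
      show Real.cos (thn δ (tau B (centre z U))) * F (centre z U) = _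
      rw [hc6 z hz, hFc z hz])
    (fun U hU => by
      refine hτ U ?_
      by_contra hlt
      rw [not_lt] at hlt
      apply hU
      show Real.cos (thn δ (tau B U)) * F U = 0
      rw [thn_large hδ hlt, Real.cos_pi_div_two, zero_mul])
  obtain ⟨f, hf⟩ : ∃ f, f = dc.pull L.r (fun U => Real.cos (thn δ (tau B U)) * F U) := ⟨_, rfl⟩
  rw [← hf] at p1 p2 p3 p4 p5
  show CI (AdS B D) (L.T g (dc.pull L.r fun U => Real.cos (thn δ (tau B U)) * F U)) ∧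
    HasCompactSupport (dc.pull L.r fun U => Real.cos (thn δ (tau B U)) * F U) ∧
    Continuous (dc.pull L.r fun U => Real.cos (thn δ (tau B U)) * F U) ∧
    ∫ C, L.T g (dc.pull L.r fun U => Real.cos (thn δ (tau B U)) * F U) C ^ 2 ≤
      ∫ U, F U ^ 2 ∂(Measure.pi fun _ : Link D l => μ) ∧ _
  rw [← hf]
  have hcs := Pool.Agent.Q176.LU.csupp p2
  obtain ⟨t1, t2, t3, t4, t5⟩ := h2 _ _ L g hg f p1 hcs
  have e1 := h1 (Fin D × Fin n) (Fin dc.M) L Λ M1 hBd hκ hM1 g hg hg1 f p1 fun x hx =>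
    (p2 x hx).trans_le (pow_le_pow_left₀ hρ.le hρ1 2)
  have e2 := (p5 g hg).1
  have e3 := hims g hg F hF
  rw [hδi, ← hK2e] at e3
  have e4 := haway g hg hg2' (fun U => Real.sin (thn δ (tau B U)) * F U)
    (Pool.Agent.Q176.LU.sm_mul hsin hF)
    (fun U hU => by
      by_contra hlt
      rw [not_le] at hlt
      apply hU
      show Real.sin (thn δ (tau B U)) * F U = 0
      rw [thn_small hδ hlt.le, Real.sin_zero, zero_mul])
  have e0 : 1 / 2 * tsq (hess B (fun _ : Link D l => (1 : G))) = L.e0 := by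
    unfold Loc.e0
    rw [hch.om, dc.sum]
  rw [e0] at e4
  have i1 : ∫ U, F U ^ 2 ∂(Measure.pi fun _ : Link D l => μ) =
      ∫ U, (Real.cos (thn δ (tau B U)) * F U) ^ 2 ∂(Measure.pi fun _ : Link D l => μ) +
      ∫ U, (Real.sin (thn δ (tau B U)) * F U) ^ 2 ∂(Measure.pi fun _ : Link D l => μ) := by
    rw [← integral_add]
    · refine integral_congr_ae (Eventually.of_forall fun U => ?_)
      show F U ^ 2 = (Real.cos (thn δ (tau B U)) * F U) ^ 2 +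
        (Real.sin (thn δ (tau B U)) * F U) ^ 2
      have := Real.sin_sq_add_cos_sq (thn δ (tau B U))
      linear_combination (-F U ^ 2) * this
    · exact Pool.Agent.Q176.LU.int_of_cont hG μ
        ((Pool.Agent.Q176.LU.smc (Pool.Agent.Q176.LU.sm_mul hcos hF)).pow 2)
    · exact Pool.Agent.Q176.LU.int_of_cont hG μ
        ((Pool.Agent.Q176.LU.smc (Pool.Agent.Q176.LU.sm_mul hsin hF)).pow 2)
  have i2 : 0 ≤ ∫ U, (Real.sin (thn δ (tau B U)) * F U) ^ 2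
      ∂(Measure.pi fun _ : Link D l => μ) := integral_nonneg fun U => sq_nonneg _
  have i3 : 0 ≤ ∫ U, (Real.cos (thn δ (tau B U)) * F U) ^ 2
      ∂(Measure.pi fun _ : Link D l => μ) := integral_nonneg fun U => sq_nonneg _
  obtain ⟨m, hm⟩ : ∃ m, m = ∫ U, F U ^ 2 ∂(Measure.pi fun _ : Link D l => μ) := ⟨_, rfl⟩
  obtain ⟨a, ha⟩ : ∃ a, a = ∫ U, (Real.cos (thn δ (tau B U)) * F U) ^ 2
      ∂(Measure.pi fun _ : Link D l => μ) := ⟨_, rfl⟩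
  obtain ⟨b, hb⟩ : ∃ b, b = ∫ U, (Real.sin (thn δ (tau B U)) * F U) ^ 2
      ∂(Measure.pi fun _ : Link D l => μ) := ⟨_, rfl⟩
  rw [← p4, ← ha] at e1 t5
  simp only [← hb] at e4
  rw [← hm, ← ha, ← hb] at i1
  rw [← ha] at i3
  rw [← hb] at i2
  rw [← hm] at e3 ⊢
  obtain ⟨t, ht⟩ : ∃ t, t = ∫ C, L.T g f C ^ 2 := ⟨_, rfl⟩
  rw [← ht] at e1 t5 ⊢
  refine ⟨⟨t1, t2, ?_⟩, hcs, p1.continuous, by linarith, ?_⟩
  · rintro σ ⟨h, rfl⟩ x
    refine (h3 _ _ L (adF B h) (Pool.Agent.Q176.LU.tauh dc h)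
      (fun t x => Pool.Agent.Q176.LU.adF_smul B h t x) (fun a => ?_)
      (fun a => ?_) (fun C a => hch.Jinv h (C, a)) g hg).1 f (fun C a => p3 h (C, a)) x
    · exact (h9 N n D l G hG B dc h (0, a)).2.2.1
    · rw [hch.om]
      exact (h9 N n D l G hG B dc h (0, a)).2.2.2.1
  · have q1 : M⁻¹ ≤ M1⁻¹ := inv_anti₀ hM1p (by linarith)
    have q2 : M⁻¹ ≤ M'⁻¹ := inv_anti₀ hM'p (by linarith)
    have k1 : M⁻¹ * (m - t) ≤ M1⁻¹ * (a - t) + M'⁻¹ * b := by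
      have k2 : M⁻¹ * (a - t) ≤ M1⁻¹ * (a - t) :=
        mul_le_mul_of_nonneg_right q1 (by linarith)
      have k3 : M⁻¹ * b ≤ M'⁻¹ * b := mul_le_mul_of_nonneg_right q2 i2
      rw [i1]
      linarith
    have hm0 : 0 ≤ m := by linarith
    have k4 : M1 * g * a ≤ M1 * g * m :=
      mul_le_mul_of_nonneg_left (by linarith) (mul_nonneg hM1p.le hg.le)
    have k5 : K2 * g ^ 2 * m ≤ K2 * g * m := by
      refine mul_le_mul_of_nonneg_right (mul_le_mul_of_nonneg_left ?_ hK2) hm0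
      nlinarith
    have k6 : L.e0 * m = L.e0 * a + L.e0 * b := by rw [i1]; ring
    have k7 : (M1 + K2) * g * m ≤ M * g * m := by
      refine mul_le_mul_of_nonneg_right (mul_le_mul_of_nonneg_right ?_ hg.le) hm0
      linarith
    have e12 := e1.trans e2
    obtain ⟨X, hX⟩ : ∃ X, X = ∫ C, (g ^ 2 / 2 * g2 (L.T g f) C +
      L.c4 / g ^ 2 * L.v C * L.T g f C ^ 2) := ⟨_, rfl⟩
    rw [← hX] at e12 ⊢
    have f1 : (L.e0 - M1 * g) * a = L.e0 * a - M1 * g * a := by ring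
    have f2 : (L.e0 - M * g) * m = L.e0 * m - M * g * m := by ring
    have f3 : (M1 + K2) * g * m = M1 * g * m + K2 * g * m := by ring
    have f4 : (L.e0 + M'⁻¹) * b = L.e0 * b + M'⁻¹ * b := by ring
    rw [f1] at e12
    rw [f2]
    rw [f3] at k7
    rw [f4] at e4
    linarith [e12, e3, e4, k1, k4, k5, k6, k7]

end

end Pool.Agent.Q190.LU
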