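import Mathlib
import Pool.Agent.Q77.LU.StmU
import Pool.Agent.Q177.LU.GKEY
import Pool.Agent.Q190.LU.KEYU

/-!
# Project LU, uniform version, job GKEYU (helper190 for helper77; after Q177/LU/GKEY of helper177)
-/

set_option autoImplicit false

namespace Pool.Agent.Q190.LU

open Pool.Agent.Q77.LU
open Pool.Agent.Q177.LU.GKEY
open MeasureTheory Matrix Set Filter Topology
open scoped ContDiff Matrix.Norms.Frobenius

noncomputable section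

section

variable {N n D l : ℕ} {G : Subgroup (UU N)} [NeZero l] {B : LieBasis G n}

lemma invR_mono {dc : Dec B D l} {r r' : ℝ} (h : InvR dc r) (h0 : 0 < r') (h1 : r' ≤ r) :
    InvR dc r' := by
  refine ⟨h0, ?_, fun ρ hρ hρr => h.opn ρ hρ (hρr.trans h1), fun ρ hρ hρr V hV => ?_⟩
  · obtain ⟨Ξ, e1, e2⟩ := h.inv
    exact ⟨Ξ, e1, fun x hx => e2 x (hx.trans_le (pow_le_pow_left₀ h0.le h1 2))⟩
  · exact h.bal ρ hρ (hρr.trans h1) V fun e =>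
      (hV e).trans_le (mul_le_mul_of_nonneg_right h1 hρ.le)

lemma uniR_mono {dc : Dec B D l} {r r' : ℝ} (h : UniR dc r) (h0 : 0 < r') (h1 : r' ≤ r) :
    UniR dc r' := by
  refine ⟨h0, fun γ z x y hz hx hy he => h.uniq γ z x y hz
    (hx.trans_le (pow_le_pow_left₀ h0.le h1 2)) (hy.trans_le (pow_le_pow_left₀ h0.le h1 2)) he,
    fun ρ hρ hρr => h.opn ρ hρ (hρr.trans h1)⟩

end

lemma sq_a {r : ℝ} (hr : 0 < r) : (r / 4) ^ 2 < (r / 2) ^ 2 := by nlinarith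

lemma sq_b {r : ℝ} (hr : 0 < r) : (r / 4) ^ 2 < r ^ 2 := by nlinarith

lemma fin_ineq {e0 M1 M K2 M' g A Mm b Tt Q Ef E1 E2 ε : ℝ}
    (hE1 : (e0 - M1 * g) * A + (1 - ε) * Q + M1⁻¹ * (A - Tt) ≤ E1)
    (e3 : E1 + E2 ≤ Ef + K2 * g ^ 2 * Mm) (e4 : (e0 + M'⁻¹) * b ≤ E2)
    (j1 : Mm = A + b) (j2 : 0 ≤ b) (hTA : Tt ≤ A) (j3 : 0 ≤ A)
    (hM1p : 0 < M1) (hM'p : 0 < M') (hK2 : 0 ≤ K2) (hM : M1 + M' + K2 ≤ M) (hg : 0 < g)
    (hg1 : g ≤ 1) :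
    (e0 - M * g) * Mm + (1 - ε) * Q + M⁻¹ * (Mm - Tt) ≤ Ef := by
  have q1 : M⁻¹ ≤ M1⁻¹ := inv_anti₀ hM1p (by linarith)
  have q2 : M⁻¹ ≤ M'⁻¹ := inv_anti₀ hM'p (by linarith)
  have k1 : M⁻¹ * (Mm - Tt) ≤ M1⁻¹ * (A - Tt) + M'⁻¹ * b := by
    have k2 : M⁻¹ * (A - Tt) ≤ M1⁻¹ * (A - Tt) :=
      mul_le_mul_of_nonneg_right q1 (by linarith)
    have k3 : M⁻¹ * b ≤ M'⁻¹ * b := mul_le_mul_of_nonneg_right q2 j2
    rw [j1]
    linarith
  have hm0' : 0 ≤ Mm := by linarith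
  have k4 : M1 * g * A ≤ M1 * g * Mm :=
    mul_le_mul_of_nonneg_left (by linarith) (mul_nonneg hM1p.le hg.le)
  have k5 : K2 * g ^ 2 * Mm ≤ K2 * g * Mm := by
    refine mul_le_mul_of_nonneg_right (mul_le_mul_of_nonneg_left ?_ hK2) hm0'
    nlinarith
  have k6 : e0 * Mm = e0 * A + e0 * b := by rw [j1]; ring
  have k7 : (M1 + K2) * g * Mm ≤ M * g * Mm := by
    refine mul_le_mul_of_nonneg_right (mul_le_mul_of_nonneg_right ?_ hg.le) hm0'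
    linarith
  nlinarith

theorem t_GKEYU (h0 : S_LIFTU) (h1 : S_LLBU) (h2 : S_TSM) (h3 : S_TINV) (h4 : S_PULL)
    (h5 : S_IMSU) (h6 : S_AWAYU) (h7 : S_TAUOU) (h8 : S_HC) (h9 : S_SYMM) (h10 : S_UNIQU)
    (h11 : S_INVU) : S_GKEYU := by
  classical
  intro N n D G hG hconn B _ _ μ _ _ hfin hnc hD hn
  obtain ⟨p1, h1⟩ := h1
  obtain ⟨pt, Ct, hCt, h7⟩ := h7 N n D G hG hconn B hnc
  obtain ⟨pa, Ca, hCa, h6⟩ := h6 N n D G hG hD hn B μ
  obtain ⟨pi, Ci, hCi, h5⟩ := h5 N n D G hG B μ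
  obtain ⟨pU, CU, hCU, h10⟩ := h10 N n D G hG B hnc
  obtain ⟨pI, CI, hCI, h11⟩ := h11 N n D G hG B
  obtain ⟨Cr, hCre⟩ : ∃ Cr, Cr = CU * CI := ⟨_, rfl⟩
  obtain ⟨pr, hpre⟩ : ∃ pr, pr = pU + pI := ⟨_, rfl⟩
  have hCr : 1 ≤ Cr := by rw [hCre]; nlinarith
  refine ⟨p1 + 2 * (p1 + 1 + pt + pr + pt) * pa + pi + 4 * (p1 + 1 + pt + pr + pt), ?_⟩
  intro ε κ0 hε hκ0
  obtain ⟨C1, hC1, h1⟩ := h1 ε κ0 hε hκ0
  refine ⟨C1 + Ca * (2 * ((C1 + 2 + Ct + 8 * Cr) * Ct) ^ 2) ^ pa +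
      Ci * ((C1 + 2 + Ct + 8 * Cr) * Ct) ^ 4, ?_, ?_⟩
  · have e1 : 0 ≤ Ca * (2 * ((C1 + 2 + Ct + 8 * Cr) * Ct) ^ 2) ^ pa := by positivity
    have e2 : 0 ≤ Ci * ((C1 + 2 + Ct + 8 * Cr) * Ct) ^ 4 := by positivity
    linarith
  intro l _ dc L Λ M hch hBd hκ hlΛ hM
  have hl1 : (1 : ℝ) ≤ l := by
    have : 1 ≤ l := Nat.one_le_iff_ne_zero.mpr (NeZero.ne l)
    exact_mod_cast this
  have hΛ1 : 1 ≤ Λ := hBd.one
  obtain ⟨S, hS⟩ : ∃ S, S = (C1 + 2 + Ct + 8 * Cr) * Λ ^ (p1 + 1 + pt + pr) := ⟨_, rfl⟩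
  obtain ⟨W, hW⟩ : ∃ W, W = ((C1 + 2 + Ct + 8 * Cr) * Ct) ^ 2 *
    Λ ^ (2 * (p1 + 1 + pt + pr + pt)) := ⟨_, rfl⟩
  have hcst := cst Λ l C1 Ct Ca Ci Cr p1 pt pa pi pr hl1 hlΛ hC1 hCt hCa hCi hCr
  rw [← hS, ← hW] at hcst
  obtain ⟨c1, c2, c3, c4, c5, c6, c7, c8, c9⟩ := hcst
  rw [← hM] at c9
  obtain ⟨M1, hM1⟩ : ∃ M1, M1 = C1 * Λ ^ p1 := ⟨_, rfl⟩
  obtain ⟨M', hM'⟩ : ∃ M', M' = Ca * (2 * W) ^ pa := ⟨_, rfl⟩
  obtain ⟨K2, hK2e⟩ : ∃ K2, K2 = Ci * (l : ℝ) ^ pi * W ^ 2 := ⟨_, rfl⟩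
  rw [← hM1, ← hM', ← hK2e] at c9
  rw [← hM1] at c2
  have hM1p : 0 < M1 := by rw [hM1]; positivity
  have hM'p : 0 < M' := by rw [hM']; positivity
  have hK2 : 0 ≤ K2 := by rw [hK2e]; positivity
  have hM1one : 1 ≤ M1 := by
    rw [hM1]
    nlinarith [one_le_pow₀ hΛ1 (n := p1)]
  have hMp : 0 < M := by linarith
  have hLr := L.rpos
  obtain ⟨r, hre⟩ : ∃ r, r = (Cr * (l : ℝ) ^ pr)⁻¹ := ⟨_, rfl⟩
  have hr : 0 < r := by rw [hre]; positivity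
  have hrU : r ≤ (CU * (l : ℝ) ^ pU)⁻¹ := by
    rw [hre]
    apply inv_anti₀ (by positivity)
    rw [hCre, hpre, pow_add]
    have e1 : 1 ≤ CI * (l : ℝ) ^ pI := by nlinarith [one_le_pow₀ hl1 (n := pI)]
    have e2 : 0 < CU * (l : ℝ) ^ pU := by positivity
    nlinarith
  have hrI : r ≤ (CI * (l : ℝ) ^ pI)⁻¹ := by
    rw [hre]
    apply inv_anti₀ (by positivity)
    rw [hCre, hpre, pow_add]
    have e1 : 1 ≤ CU * (l : ℝ) ^ pU := by nlinarith [one_le_pow₀ hl1 (n := pU)]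
    have e2 : 0 < CI * (l : ℝ) ^ pI := by positivity
    nlinarith
  have huni : UniR dc r := uniR_mono (h10 l dc) hr hrU
  have hinv : InvR dc r := invR_mono (h11 l dc) hr hrI
  obtain ⟨ρ, hρe⟩ : ∃ ρ, ρ = S⁻¹ := ⟨_, rfl⟩
  have hρ : 0 < ρ := by rw [hρe]; positivity
  have hρ1 : ρ ≤ M1⁻¹ := by rw [hρe]; exact inv_anti₀ hM1p c2
  have hρr : ρ < L.r := by
    refine lt_of_lt_of_le ?_ hBd.r1
    rw [hρe]
    exact inv_strictAnti₀ (by linarith) c3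
  have hρt : ρ ≤ (Ct * (l : ℝ) ^ pt)⁻¹ := by
    rw [hρe]
    exact inv_anti₀ (by positivity) c4
  have hρ8 : ρ ≤ r / 8 := by
    have e1 : r / 8 = (8 * (Cr * (l : ℝ) ^ pr))⁻¹ := by
      rw [hre, mul_inv]
      ring
    rw [hρe, e1]
    exact inv_anti₀ (by positivity) c5
  have hsymm := fun h x => h9 N n D l G hG B dc h x
  have hs : ContDiff ℝ ∞ (fun x (e : Link D l) => mt (dc.ch x e)) :=
    (hsymm 1 0).2.2.2.2.2.2.2.2
  -- the selector of the wells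
  have hst : (r / 4) ^ 2 < (r / 2) ^ 2 := sq_a hr
  obtain ⟨κ, hκ1, hκ2, hκ3, hκ4⟩ := (h0 N n D G hG B hnc l dc r hinv huni (r / 2) (by positivity)
    (by linarith)
    (bump ((r / 4) ^ 2) ((r / 2) ^ 2)) (bump_sm _ _) (fun x hx => bump_supp hst hx)
    (fun h x => by
      unfold bump
      have e1 : nx (dc.sg h x) = nx x := by
        unfold nx
        rw [(hsymm h x).2.1, (hsymm h x).2.2.1]
      rw [e1])).2
  have hW' : Well dc ρ (r / 4) (r / 2) r κ := by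
    refine ⟨hρ, by linarith, by linarith, by linarith, hκ1, hκ2, ?_, hκ4, ?_, ?_⟩
    · intro x hx
      rw [hκ3 x (hx.trans (sq_b hr))]
      exact bump_one hst hx
    · intro γ z x y hz hx hy he
      exact huni.uniq γ z x y hz hx hy he
    · exact huni.opn (r / 4) (by positivity) (by linarith)
  obtain ⟨δ, hδe⟩ : ∃ δ, δ = W⁻¹ := ⟨_, rfl⟩
  have hδ : 0 < δ := by rw [hδe]; positivity
  have hδ1 : δ ≤ 1 := by rw [hδe]; exact inv_le_one_of_one_le₀ c6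
  have hδi : δ⁻¹ = W := by rw [hδe, inv_inv]
  have hτ : ∀ U : Link D l → G, tau B U < δ → Orb dc ρ U := by
    intro U hU
    refine h7 l dc ρ hρ hρt U (hU.trans_le ?_)
    rw [hδe, hρe]
    exact c8
  obtain ⟨hc1, hc2, hc3, hc4, hc5, hc6, hc7, hc8, hc9⟩ := h8 N n D l G hG B
  obtain ⟨hcos, hsin, hims⟩ := h5 l δ hδ hδ1
  have haway := h6 l (δ / 2) (2 * W) M' (by linarith) (by
    rw [mul_inv, hδe]
    linarith) (by linarith) hM'
  obtain ⟨χ, hχ⟩ : ∃ χ : (Link D l → G) → ℝ, χ = fun U =>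
    Real.cos (thn δ (tau B U)) := ⟨_, rfl⟩
  have hχs : IsSmooth χ := by rw [hχ]; exact hcos
  have hχg : GaugeInv χ := by
    intro γ U
    rw [hχ]
    change Real.cos (thn δ (tau B (gauge γ U))) = _
    rw [hc5]
  have hχc : ∀ (z : Fin D → Subgroup.center G) (U : Link D l → G), χ (ct z U) = χ U := by
    intro z U
    rw [hχ]
    change Real.cos (thn δ (tau B (centre (fun i => (z i : G)) U))) = _
    rw [hc6 _ (fun i => (z i).2)]
  refine ⟨χ, ?_⟩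
  intro g hg hgM F hF hFg t ht
  have hg1 : g ≤ M1⁻¹ := hgM.trans (inv_anti₀ hM1p (by linarith))
  have hg2' : g ≤ M'⁻¹ := hgM.trans (inv_anti₀ hM'p (by linarith))
  have hg3 : g ≤ 1 := hgM.trans (inv_le_one_of_one_le₀ (by linarith))
  obtain ⟨F1, hF1⟩ : ∃ F1 : (Link D l → G) → ℝ, F1 = fun U => χ U * F U := ⟨_, rfl⟩
  have hF1s : IsSmooth F1 := by rw [hF1]; exact hχs.mul hF
  have hF1g : GaugeInv F1 := by
    intro γ U
    rw [hF1]
    change χ (gauge γ U) * F (gauge γ U) = _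
    rw [hχg, hFg]
  have hF1o : ∀ U, F1 U ≠ 0 → Orb dc ρ U := by
    intro U hU
    refine hτ U ?_
    by_contra hlt
    rw [not_lt] at hlt
    apply hU
    rw [hF1, hχ]
    change Real.cos (thn δ (tau B U)) * F U = 0
    rw [thn_large hδ hlt, Real.cos_pi_div_two, zero_mul]
  have hF1c : ∀ z, (fun U => F1 (ct z U)) =
      fun U => χ U * F (centre (fun i => (z i : G)) U) := by
    intro z
    funext U
    rw [hF1]
    change χ (ct z U) * F (ct z U) = _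
    rw [hχc]
    rfl
  obtain ⟨f, hf⟩ : ∃ f : (Fin D → Subgroup.center G) →
      ((Fin D × Fin n → ℝ) × (Fin dc.M → ℝ)) → ℝ, f = fun z =>
        dc.pull L.r (fun U => χ U * F (centre (fun i => (z i : G)) U)) := ⟨_, rfl⟩
  have hfz : ∀ z, dc.pull L.r (fun U => χ U * F (centre (fun i => (z i : G)) U)) = f z := by
    intro z
    rw [hf]
  have hfH : ∀ z, dc.pull L.r (Hz κ F1 z) = f z := by
    intro z
    rw [pull_well μ hch hW' hρr hF1o z, hF1c, hfz]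
  simp only [hfz] at ht ⊢
  -- the pull backs
  have hp : ∀ z, ContDiff ℝ ∞ (f z) ∧ (∀ x, f z x ≠ 0 → nx x < ρ ^ 2) ∧
      (∀ h x, f z (dc.sg h x) = f z x) ∧
      ∫ U, Hz κ F1 z U ^ 2 ∂(Measure.pi fun _ : Link D l => μ) = (∫ x, f z x ^ 2 * L.J x) ∧
      (∫ x, (g ^ 2 / 2 * (1 - L.K * nx x) * (gC (f z) x + gA (f z) x) +
        1 / g ^ 2 * L.w x * f z x ^ 2) * L.J x) ≤ energy B μ g (Hz κ F1 z) := by
    intro z
    obtain ⟨p1, p2, p3, p4, p5⟩ := h4 N n D l G hG B μ dc L hch ρ hρ hρr (Hz κ F1 z)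
      (Hz_smooth hκ1 hF1s z) (Hz_gauge hκ2 hF1g z) (Hz_centre z) (fun U => Hz_supp hF1o z U)
    rw [hfH] at p1 p2 p3 p4 p5
    exact ⟨p1, p2, p3, p4, (p5 g hg).1⟩
  have hcs : ∀ z, HasCompactSupport (f z) := fun z =>
    Pool.Agent.Q176.LU.csupp (hp z).2.1
  have hT := fun z => h2 _ _ L g hg (f z) (hp z).1 (hcs z)
  have hLz := fun z => h1 (Fin D × Fin n) (Fin dc.M) L Λ M1 hBd hκ hM1 g hg hg1 (f z) (hp z).1 fun x hx =>
    ((hp z).2.1 x hx).trans_le (pow_le_pow_left₀ hρ.le hρ1 2)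
  -- the number of the wells
  obtain ⟨m, hm⟩ : ∃ m : ℝ, m = (Fintype.card (Fin D → Subgroup.center G) : ℝ) := ⟨_, rfl⟩
  have hm0 : 0 < m := by
    rw [hm]
    exact_mod_cast Fintype.card_pos
  have hmD : m = (Fintype.card (Subgroup.center G) : ℝ) ^ D := by
    rw [hm, Fintype.card_fun, Fintype.card_fin]
    push_cast
    rfl
  obtain ⟨c, hc⟩ : ∃ c : ℝ, c = (Real.sqrt ((Fintype.card (Subgroup.center G) : ℝ) ^ D))⁻¹ :=
    ⟨_, rfl⟩
  have hc2 : c ^ 2 = m⁻¹ := by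
    rw [hc, ← hmD, inv_pow, Real.sq_sqrt hm0.le]
  rw [← hc] at ht
  obtain ⟨i1, i2⟩ := int_well (B := B) μ hG hs hW' hF1s hF1o g
  rw [← hm] at i1 i2
  have ht2 : ∀ z, ∫ C, t z C ^ 2 = m⁻¹ * ∫ C, L.T g (f z) C ^ 2 := by
    intro z
    rw [← integral_const_mul, ht z]
    refine integral_congr_ae (Eventually.of_forall fun C => ?_)
    change (c * L.T g (f z) C) ^ 2 = m⁻¹ * L.T g (f z) C ^ 2
    rw [mul_pow, hc2]
  have ht3 : ∀ z, ∫ C, (g ^ 2 / 2 * g2 (t z) C + L.c4 / g ^ 2 * L.v C * t z C ^ 2) =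
      m⁻¹ * ∫ C, (g ^ 2 / 2 * g2 (L.T g (f z)) C +
        L.c4 / g ^ 2 * L.v C * L.T g (f z) C ^ 2) := by
    intro z
    rw [← integral_const_mul, ht z]
    refine integral_congr_ae (Eventually.of_forall fun C => ?_)
    change g ^ 2 / 2 * g2 (fun C => c * L.T g (f z) C) C +
      L.c4 / g ^ 2 * L.v C * (c * L.T g (f z) C) ^ 2 = _
    rw [g2_smul c (hT z).1, mul_pow, hc2]
    ring
  -- the sum of the local bounds
  obtain ⟨A, hA⟩ : ∃ A, A = ∫ U, F1 U ^ 2 ∂(Measure.pi fun _ : Link D l => μ) := ⟨_, rfl⟩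
  obtain ⟨Tt, hTt⟩ : ∃ Tt, Tt = ∑ z, ∫ C, t z C ^ 2 := ⟨_, rfl⟩
  obtain ⟨Q, hQ⟩ : ∃ Q, Q = ∑ z, ∫ C, (g ^ 2 / 2 * g2 (t z) C +
    L.c4 / g ^ 2 * L.v C * t z C ^ 2) := ⟨_, rfl⟩
  rw [← hTt, ← hQ]
  rw [← hA] at i1
  have hTt2 : m * Tt = ∑ z, ∫ C, L.T g (f z) C ^ 2 := by
    rw [hTt, Finset.mul_sum]
    refine Finset.sum_congr rfl fun z _ => ?_
    rw [ht2 z, mul_inv_cancel_left₀ hm0.ne']
  have hQ2 : m * Q = ∑ z, ∫ C, (g ^ 2 / 2 * g2 (L.T g (f z)) C +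
      L.c4 / g ^ 2 * L.v C * L.T g (f z) C ^ 2) := by
    rw [hQ, Finset.mul_sum]
    refine Finset.sum_congr rfl fun z _ => ?_
    rw [ht3 z, mul_inv_cancel_left₀ hm0.ne']
  have hTA : Tt ≤ A := by
    have h11 : m * Tt ≤ m * A := by
      rw [hTt2, ← i1]
      refine Finset.sum_le_sum fun z _ => ?_
      rw [(hp z).2.2.2.1]
      exact (hT z).2.2.2.2
    exact le_of_mul_le_mul_left h11 hm0
  have hE1 : (L.e0 - M1 * g) * A + (1 - ε) * Q + M1⁻¹ * (A - Tt) ≤ energy B μ g F1 := by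
    have h11 : ∑ z, ((L.e0 - M1 * g) *
        (∫ U, Hz κ F1 z U ^ 2 ∂(Measure.pi fun _ : Link D l => μ)) +
        (1 - ε) * (∫ C, (g ^ 2 / 2 * g2 (L.T g (f z)) C +
          L.c4 / g ^ 2 * L.v C * L.T g (f z) C ^ 2)) +
        M1⁻¹ * ((∫ U, Hz κ F1 z U ^ 2 ∂(Measure.pi fun _ : Link D l => μ)) -
          ∫ C, L.T g (f z) C ^ 2)) ≤ ∑ z, energy B μ g (Hz κ F1 z) := by
      refine Finset.sum_le_sum fun z _ => ?_
      have h12 := hLz z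
      rw [← (hp z).2.2.2.1] at h12
      exact h12.trans (hp z).2.2.2.2
    rw [i2, Finset.sum_add_distrib, Finset.sum_add_distrib, ← Finset.mul_sum, ← Finset.mul_sum,
      ← Finset.mul_sum, Finset.sum_sub_distrib, i1, ← hTt2, ← hQ2] at h11
    have h13 : m * ((L.e0 - M1 * g) * A + (1 - ε) * Q + M1⁻¹ * (A - Tt)) ≤
        m * energy B μ g F1 := by
      linarith
    exact le_of_mul_le_mul_left h13 hm0
  -- the region away from the wells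
  have e3 := hims g hg F hF
  rw [hδi, ← hK2e] at e3
  have e4 := haway g hg hg2' (fun U => Real.sin (thn δ (tau B U)) * F U)
    (hsin.mul hF) (fun U hU => by
      by_contra hlt
      rw [not_le] at hlt
      apply hU
      show Real.sin (thn δ (tau B U)) * F U = 0
      rw [thn_small hδ hlt.le, Real.sin_zero, zero_mul])
  have e0 : 1 / 2 * tsq (hess B (fun _ : Link D l => (1 : G))) = L.e0 := by
    unfold Loc.e0
    rw [hch.om, dc.sum]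
  rw [e0] at e4
  have j1 : ∫ U, F U ^ 2 ∂(Measure.pi fun _ : Link D l => μ) =
      ∫ U, F1 U ^ 2 ∂(Measure.pi fun _ : Link D l => μ) +
      ∫ U, (Real.sin (thn δ (tau B U)) * F U) ^ 2
        ∂(Measure.pi fun _ : Link D l => μ) := by
    rw [← integral_add]
    · refine integral_congr_ae (Eventually.of_forall fun U => ?_)
      rw [hF1, hχ]
      show F U ^ 2 = (Real.cos (thn δ (tau B U)) * F U) ^ 2 +
        (Real.sin (thn δ (tau B U)) * F U) ^ 2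
      have := Real.sin_sq_add_cos_sq (thn δ (tau B U))
      linear_combination (-F U ^ 2) * this
    · exact integrable_links μ hG (hF1s.continuous.pow 2)
    · exact integrable_links μ hG ((hsin.mul hF).continuous.pow 2)
  have j2 : 0 ≤ ∫ U, (Real.sin (thn δ (tau B U)) * F U) ^ 2
      ∂(Measure.pi fun _ : Link D l => μ) := integral_nonneg fun U => sq_nonneg _
  have j3 : 0 ≤ A := by rw [hA]; exact integral_nonneg fun U => sq_nonneg _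
  obtain ⟨Mm, hMm⟩ : ∃ Mm, Mm = ∫ U, F U ^ 2 ∂(Measure.pi fun _ : Link D l => μ) := ⟨_, rfl⟩
  obtain ⟨b, hb⟩ : ∃ b, b = ∫ U, (Real.sin (thn δ (tau B U)) * F U) ^ 2
      ∂(Measure.pi fun _ : Link D l => μ) := ⟨_, rfl⟩
  simp only [← hb] at e4
  rw [← hMm, ← hA, ← hb] at j1
  rw [← hb] at j2
  have e3' : energy B μ g F1 +
      energy B μ g (fun U => Real.sin (thn δ (tau B U)) * F U) ≤
      energy B μ g F + K2 * g ^ 2 * ∫ U, F U ^ 2 ∂(Measure.pi fun _ : Link D l => μ) := by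
    rw [hF1, hχ]
    exact e3
  rw [← hMm] at e3' ⊢
  refine ⟨fun z => ?_, hcs, fun z => (hp z).1.continuous, by linarith, ?_⟩
  · rw [ht z]
    refine ⟨contDiff_const.mul (hT z).1, (hT z).2.1.mul_left, ?_⟩
    rintro σ ⟨h, rfl⟩ x
    have h11 := (h3 _ _ L (adF B h) (Pool.Agent.Q176.LU.tauh dc h)
      (fun t x => Pool.Agent.Q176.LU.adF_smul B h t x) (fun a => by
        exact (h9 N n D l G hG B dc h (0, a)).2.2.1)
      (fun a => by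
        rw [hch.om]
        exact (h9 N n D l G hG B dc h (0, a)).2.2.2.1)
      (fun C a => hch.Jinv h (C, a)) g hg).1 (f z) (fun C a => (hp z).2.2.1 h (C, a)) x
    rw [h11]
  · exact fin_ineq hE1 e3' e4 j1 j2 hTA j3 hM1p hM'p hK2 c9 hg hg3

end

end Pool.Agent.Q190.LU
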